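import Mathlib

/-!
# The Perron–Frobenius degree of the largest root of `t³ + 3t² - 15t - 46` is 4

The primitive matrix
`A = ![![0, 0, 1, 5], ![0, 0, 14, 1], ![0, 1, 0, 0], ![2, 0, 1, 0]]` (with `A ^ 5 > 0`) has the characteristic
polynomial `t⁴ - 24t² - t + 138 = (t - 3)(t³ + 3t² - 15t - 46)`, so its spectral radius is the largest root
`λ = 3.8916…` of `t³ + 3t² - 15t - 46`. Matrices of size at most `3` are excluded.
-/

set_option autoImplicit false

namespace Pool.Agent.Results.MP_e10d7f_nt.DegPFFour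

open Matrix

/-- A square matrix with entries in `ℕ` is primitive if the entries of some power `A ^ N`, `N ≥ 1`, are all
positive. -/
def Primitive {n : ℕ} (A : Matrix (Fin n) (Fin n) ℕ) : Prop := ∃ N : ℕ, 1 ≤ N ∧ ∀ i j, 0 < (A ^ N) i j

/-- The complex matrix with the same entries. -/
def toC {n : ℕ} (A : Matrix (Fin n) (Fin n) ℕ) : Matrix (Fin n) (Fin n) ℂ := A.map fun x => (x : ℂ)

/-- `r` is the spectral radius of `A`: the largest modulus of a complex eigenvalue. -/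
def HasSpectralRadius {n : ℕ} (A : Matrix (Fin n) (Fin n) ℕ) (r : ℝ) : Prop :=
  IsGreatest {x : ℝ | ∃ z ∈ spectrum ℂ (toC A), ‖z‖ = x} r

/-- The sizes of the primitive matrices with entries in `ℕ` and spectral radius `r`; the least one is the
Perron–Frobenius degree of `r`. -/
def sizes (r : ℝ) : Set ℕ :=
  {n : ℕ | ∃ A : Matrix (Fin n) (Fin n) ℕ, Primitive A ∧ HasSpectralRadius A r}

/-- The polynomial `f`. -/
def f (t : ℝ) : ℝ := t ^ 3 + 3 * t ^ 2 - 15 * t - 46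

theorem f_cont : Continuous f := by
  unfold f
  fun_prop

theorem exists_root (a b : ℝ) (hab : a ≤ b) (h : f a ≤ 0 ∧ 0 ≤ f b ∨ f b ≤ 0 ∧ 0 ≤ f a) :
    ∃ t, a ≤ t ∧ t ≤ b ∧ f t = 0 := by
  rcases h with h | h
  · obtain ⟨t, ht, h0⟩ := intermediate_value_Icc hab f_cont.continuousOn ⟨h.1, h.2⟩
    exact ⟨t, ht.1, ht.2, h0⟩
  · obtain ⟨t, ht, h0⟩ := intermediate_value_Icc' hab f_cont.continuousOn ⟨h.1, h.2⟩
    exact ⟨t, ht.1, ht.2, h0⟩

/-! ### Irreducibility -/

open Polynomial in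
/-- The polynomial over `ℚ`. -/
noncomputable def fQ : ℚ[X] := X ^ 3 + 3 * X ^ 2 - 15 * X - 46

open Polynomial in
theorem fQ_monic : fQ.Monic := by
  unfold fQ
  monicity!

open Polynomial in
theorem fQ_natDegree : fQ.natDegree = 3 := by
  unfold fQ
  compute_degree!

theorem no_rat_root (r : ℚ) : r ^ 3 + 3 * r ^ 2 - 15 * r - 46 ≠ 0 := by
  intro h
  have hd : (r.den : ℚ) ≠ 0 := by exact_mod_cast r.den_nz
  have hr : r = r.num / r.den := (Rat.num_div_den r).symm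
  have h1 : ((r.num : ℤ) : ℚ) ^ 3 + 3 * r.num ^ 2 * r.den - 15 * r.num * r.den ^ 2 - 46 * r.den ^ 3 = 0 := by
    have h2 : (r * r.den) ^ 3 + 3 * (r * r.den) ^ 2 * r.den - 15 * (r * r.den) * r.den ^ 2 -
        46 * r.den ^ 3 = 0 := by
      have : (r * r.den) ^ 3 + 3 * (r * r.den) ^ 2 * r.den - 15 * (r * r.den) * r.den ^ 2 -
        46 * r.den ^ 3 = (r ^ 3 + 3 * r ^ 2 - 15 * r - 46) * r.den ^ 3 := by ring
      rw [this, h, zero_mul]
    rwa [Rat.mul_den_eq_num] at h2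
  have h3 : (r.num : ℤ) ^ 3 + 3 * r.num ^ 2 * r.den - 15 * r.num * r.den ^ 2 - 46 * r.den ^ 3 = 0 := by
    exact_mod_cast h1
  have h4 : ((r.num : ℤ) : ZMod 5) ^ 3 + 3 * ((r.num : ℤ) : ZMod 5) ^ 2 * ((r.den : ℕ) : ZMod 5) -
      15 * ((r.num : ℤ) : ZMod 5) * ((r.den : ℕ) : ZMod 5) ^ 2 - 46 * ((r.den : ℕ) : ZMod 5) ^ 3 = 0 := by
    have := congrArg (Int.cast : ℤ → ZMod 5) h3
    push_cast at this
    exact this
  have h5 : ∀ a b : ZMod 5, a ^ 3 + 3 * a ^ 2 * b - 15 * a * b ^ 2 - 46 * b ^ 3 = 0 → a = 0 ∧ b = 0 := by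
    decide
  obtain ⟨h6, h7⟩ := h5 _ _ h4
  have h8 : (5 : ℤ) ∣ r.num := (ZMod.intCast_zmod_eq_zero_iff_dvd r.num 5).1 h6
  have h9 : 5 ∣ r.den := (ZMod.natCast_eq_zero_iff r.den 5).1 h7
  have h10 : 5 ∣ r.num.natAbs := by
    rwa [← Int.natCast_dvd] 
  have := Nat.dvd_gcd h10 h9
  rw [r.reduced.gcd_eq_one] at this
  omega

open Polynomial in
theorem fQ_irr : Irreducible fQ := by
  rw [fQ_monic.irreducible_iff_roots_eq_zero_of_degree_le_three (by rw [fQ_natDegree]; norm_num)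
    (by rw [fQ_natDegree])]
  refine Multiset.eq_zero_of_forall_notMem fun r hr => ?_
  have := (mem_roots'.1 hr).2
  rw [IsRoot, fQ] at this
  simp only [eval_sub, eval_add, eval_pow, eval_X, eval_mul, eval_ofNat] at this
  exact no_rat_root r this

open Polynomial in
/-- `1, λ, λ²` are linearly independent over `ℤ`. -/
theorem indep (lam : ℝ) (h : f lam = 0) (x y z : ℤ) (hxyz : (x : ℝ) * lam ^ 2 + y * lam + z = 0) :
    x = 0 ∧ y = 0 ∧ z = 0 := by
  set p : ℚ[X] := C (x : ℚ) * X ^ 2 + C (y : ℚ) * X + C (z : ℚ) with hp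
  by_cases hp0 : p = 0
  · have c2 := congrArg (fun q => coeff q 2) hp0
    have c1 := congrArg (fun q => coeff q 1) hp0
    have c0 := congrArg (fun q => coeff q 0) hp0
    simp only [hp, coeff_add, coeff_C_mul, coeff_X_pow, coeff_X, coeff_C, coeff_zero] at c2 c1 c0
    norm_num at c2 c1 c0
    exact ⟨c2, c1, c0⟩
  · exfalso
    have hnd : ¬ fQ ∣ p := by
      intro hd
      have h1 := natDegree_le_of_dvd hd hp0
      have h2 : p.natDegree ≤ 2 := by
        rw [hp]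
        compute_degree
      rw [fQ_natDegree] at h1
      omega
    obtain ⟨u, v, huv⟩ := (fQ_irr.coprime_iff_not_dvd).2 hnd
    have h1 := congrArg (aeval lam) huv
    have hf : aeval lam fQ = 0 := by
      rw [fQ]
      simp only [map_sub, map_add, map_mul, map_pow, aeval_X, map_ofNat]
      exact h
    have hpp : aeval lam p = 0 := by
      rw [hp]
      simp only [map_add, map_mul, map_pow, aeval_X, aeval_C]
      simpa using hxyz
    rw [map_add, map_mul, map_mul, hf, hpp] at h1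
    simp at h1

/-! ### The lower bound -/

/-- The possible cubics with an eigenvalue of modulus `λ`. -/
theorem core (lam : ℝ) (h : f lam = 0) (E1 E2 E3 : ℤ) (z : ℂ)
    (hz : z ^ 3 - E1 * z ^ 2 + E2 * z - E3 = 0) (hn : ‖z‖ = lam) :
    E1 = -3 ∨ (E1 = 3 ∧ E2 = -15 ∧ E3 = -46) := by
  have hf : lam ^ 3 + 3 * lam ^ 2 - 15 * lam - 46 = 0 := h
  have hs : z.re ^ 2 + z.im ^ 2 = lam ^ 2 := by
    rw [← hn, Complex.sq_norm, Complex.normSq_apply]
    ring
  set x := z.re with hx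
  set y := z.im with hy
  have hzz : z = ⟨x, y⟩ := rfl
  have hre := congrArg Complex.re hz
  have him := congrArg Complex.im hz
  simp [pow_succ, Complex.mul_re, Complex.mul_im, ← hx, ← hy] at hre him
  by_cases hy0 : y = 0
  · rw [hy0] at hs hre
    have hx2 : (x - lam) * (x + lam) = 0 := by linear_combination hs
    rcases mul_eq_zero.1 hx2 with h1 | h1
    · left
      have hxl : x = lam := by linarith
      rw [hxl] at hre
      have h2 : (((-E1 - 3 : ℤ) : ℝ)) * lam ^ 2 + ((E2 + 15 : ℤ) : ℝ) * lam + ((46 - E3 : ℤ) : ℝ) = 0 := by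
        push_cast
        linear_combination hre - hf
      have := (indep lam h _ _ _ h2).1
      omega
    · right
      have hxl : x = -lam := by linarith
      rw [hxl] at hre
      have h2 : (((3 - E1 : ℤ) : ℝ)) * lam ^ 2 + ((-15 - E2 : ℤ) : ℝ) * lam + ((-46 - E3 : ℤ) : ℝ) = 0 := by
        push_cast
        linear_combination hre + hf
      obtain ⟨h3, h4, h5⟩ := indep lam h _ _ _ h2
      omega
  · exfalso
    have him' : 4 * x ^ 2 - lam ^ 2 - 2 * E1 * x + E2 = 0 := by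
      have : y * (4 * x ^ 2 - lam ^ 2 - 2 * E1 * x + E2) = 0 := by
        linear_combination him - y * hs * (-1)
      exact (mul_eq_zero.1 this).resolve_left hy0
    have hE3 : (E3 : ℝ) = lam ^ 2 * (E1 - 2 * x) := by
      linear_combination (-1 : ℝ) * hre + (x : ℝ) * him' + (E1 - 3 * x) * hs
    have hE2 : (E2 : ℝ) = lam ^ 2 + (E1 - (E1 - 2 * x)) * (E1 - 2 * x) := by
      linear_combination him'
    have key : (lam ^ 2) ^ 3 - E2 * (lam ^ 2) ^ 2 + E1 * E3 * lam ^ 2 - (E3 : ℝ) ^ 2 = 0 := by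
      rw [hE3, hE2]
      ring
    have h2 : ((24 * (39 - E2) + (E1 * E3 - 501) : ℤ) : ℝ) * lam ^ 2 + ((39 - E2 : ℤ) : ℝ) * lam +
        ((-138 * (39 - E2) + (2116 - E3 ^ 2) : ℤ) : ℝ) = 0 := by
      push_cast
      linear_combination key -
        (lam ^ 3 - 3 * lam ^ 2 - E2 * lam + 3 * E2 + 24 * lam - 71) * hf
    obtain ⟨h3, h4, h5⟩ := indep lam h _ _ _ h2
    have h6 : E1 * E3 = 501 := by omega
    have h7 : E3 ^ 2 = 2116 := by
      have : E2 = 39 := by omega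
      rw [this] at h5
      linarith
    have h8 : (E3 - 46) * (E3 + 46) = 0 := by linear_combination h7
    rcases mul_eq_zero.1 h8 with h9 | h9
    · have : E3 = 46 := by omega
      rw [this] at h6
      omega
    · have : E3 = -46 := by omega
      rw [this] at h6
      omega

/-- Membership in the spectrum. -/
theorem mem_spec {n : ℕ} (A : Matrix (Fin n) (Fin n) ℕ) (z : ℂ) :
    z ∈ spectrum ℂ (toC A) ↔ (Matrix.scalar (Fin n) z - toC A).det = 0 := by
  rw [spectrum.mem_iff, Matrix.isUnit_iff_isUnit_det, isUnit_iff_ne_zero, not_not]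
  rfl

theorem not_one (lam : ℝ) (h : f lam = 0) : 1 ∉ sizes lam := by
  rintro ⟨A, -, ⟨z, hz, hn⟩, -⟩
  rw [mem_spec, Matrix.det_fin_one] at hz
  simp [toC] at hz
  have := core lam h (A 0 0 : ℤ) 0 0 z (by push_cast; linear_combination z ^ 2 * hz) hn
  omega

theorem not_two (lam : ℝ) (h : f lam = 0) : 2 ∉ sizes lam := by
  rintro ⟨A, -, ⟨z, hz, hn⟩, -⟩
  rw [mem_spec, Matrix.det_fin_two] at hz
  simp [toC] at hz
  have := core lam h ((A 0 0 : ℤ) + A 1 1) ((A 0 0 : ℤ) * A 1 1 - A 0 1 * A 1 0) 0 z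
    (by push_cast; linear_combination z * hz) hn
  omega

theorem not_three (lam : ℝ) (h : f lam = 0) : 3 ∉ sizes lam := by
  rintro ⟨A, -, ⟨z, hz, hn⟩, -⟩
  rw [mem_spec, Matrix.det_fin_three] at hz
  simp [toC] at hz
  have hc := core lam h ((A 0 0 : ℤ) + A 1 1 + A 2 2)
    ((A 0 0 : ℤ) * A 1 1 + A 0 0 * A 2 2 + A 1 1 * A 2 2 - A 0 1 * A 1 0 - A 0 2 * A 2 0 - A 1 2 * A 2 1)
    ((A 0 0 : ℤ) * A 1 1 * A 2 2 + A 0 1 * A 1 2 * A 2 0 + A 0 2 * A 1 0 * A 2 1 -
      A 0 0 * (A 1 2 * A 2 1) - A 1 1 * (A 0 2 * A 2 0) - A 2 2 * (A 0 1 * A 1 0)) z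
    (by push_cast; linear_combination hz) hn
  rcases hc with hc | ⟨h1, h2, h3⟩
  · omega
  · have p1 : 0 ≤ (A 0 1 : ℤ) * A 1 2 * A 2 0 := by positivity
    have p2 : 0 ≤ (A 0 2 : ℤ) * A 1 0 * A 2 1 := by positivity
    have q1 : 0 ≤ (A 1 2 : ℤ) * A 2 1 := by positivity
    have q2 : 0 ≤ (A 0 2 : ℤ) * A 2 0 := by positivity
    have q3 : 0 ≤ (A 0 1 : ℤ) * A 1 0 := by positivity
    generalize (A 0 1 : ℤ) * A 1 2 * A 2 0 = P1 at *
    generalize (A 0 2 : ℤ) * A 1 0 * A 2 1 = P2 at *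
    generalize (A 1 2 : ℤ) * A 2 1 = Q1 at *
    generalize (A 0 2 : ℤ) * A 2 0 = Q2 at *
    generalize (A 0 1 : ℤ) * A 1 0 = Q3 at *
    have d0 : (0 : ℤ) ≤ A 0 0 := by positivity
    have d1 : (0 : ℤ) ≤ A 1 1 := by positivity
    have d2 : (0 : ℤ) ≤ A 2 2 := by positivity
    generalize (A 0 0 : ℤ) = a at *
    generalize (A 1 1 : ℤ) = b at *
    generalize (A 2 2 : ℤ) = c at *
    have ha : a ≤ 3 := by omega
    have hb : b ≤ 3 := by omega
    have hc : c = 3 - a - b := by omega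
    subst hc
    interval_cases a <;> interval_cases b <;> omega

theorem not_zero (lam : ℝ) : 0 ∉ sizes lam := by
  rintro ⟨A, -, ⟨z, hz, hn⟩, -⟩
  rw [mem_spec] at hz
  simp at hz

/-! ### The upper bound -/

/-- The matrix. -/
def M : Matrix (Fin 4) (Fin 4) ℕ := !![0, 0, 1, 5; 0, 0, 14, 1; 0, 1, 0, 0; 2, 0, 1, 0]

theorem M_primitive : Primitive M := by
  refine ⟨5, by norm_num, fun i j => ?_⟩
  fin_cases i <;> fin_cases j <;> simp [M, pow_succ, Matrix.mul_apply, Fin.sum_univ_succ]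

theorem M_spec (z : ℂ) : z ∈ spectrum ℂ (toC M) ↔ (z - 3) * (z ^ 3 + 3 * z ^ 2 - 15 * z - 46) = 0 := by
  rw [mem_spec]
  have : (Matrix.scalar (Fin 4) z - toC M).det = (z - 3) * (z ^ 3 + 3 * z ^ 2 - 15 * z - 46) := by
    have e : Matrix.scalar (Fin 4) z - toC M =
        !![z, 0, -1, -5; 0, z, -14, -1; 0, -1, z, 0; -2, 0, -1, z] := by
      ext i j
      fin_cases i <;> fin_cases j <;> simp [toC, M]
    rw [e, Matrix.det_succ_row_zero]
    simp [Fin.sum_univ_succ, Matrix.det_fin_three, Fin.succAbove]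
    ring
  rw [this]

/-- **The Perron–Frobenius degree is 4.** The polynomial `t³ + 3t² - 15t - 46` has a largest real root `λ`, and
`4` is the least size of a primitive matrix with nonnegative integer entries and spectral radius `λ`. -/
theorem result : ∃ lam : ℝ, IsGreatest {t : ℝ | t ^ 3 + 3 * t ^ 2 - 15 * t - 46 = 0} lam ∧
    IsLeast (sizes lam) 4 := by
  obtain ⟨l1, a1, b1, h1⟩ := exists_root 3.8 3.9 (by norm_num) (Or.inl (by unfold f; norm_num))
  obtain ⟨l2, a2, b2, h2⟩ := exists_root (-3.3) (-3.2) (by norm_num) (Or.inr (by unfold f; norm_num))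
  obtain ⟨l3, a3, b3, h3⟩ := exists_root (-3.7) (-3.6) (by norm_num) (Or.inl (by unfold f; norm_num))
  have h1' : l1 ^ 3 + 3 * l1 ^ 2 - 15 * l1 - 46 = 0 := h1
  have h2' : l2 ^ 3 + 3 * l2 ^ 2 - 15 * l2 - 46 = 0 := h2
  have h3' : l3 ^ 3 + 3 * l3 ^ 2 - 15 * l3 - 46 = 0 := h3
  have e2 : l2 ^ 2 + (l1 + 3) * l2 + (l1 ^ 2 + 3 * l1 - 15) = 0 := by
    have : (l2 - l1) * (l2 ^ 2 + (l1 + 3) * l2 + (l1 ^ 2 + 3 * l1 - 15)) = 0 := by
      linear_combination h2' - h1'
    refine (mul_eq_zero.1 this).resolve_left ?_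
    intro h
    linarith
  have e3 : l3 ^ 2 + (l1 + 3) * l3 + (l1 ^ 2 + 3 * l1 - 15) = 0 := by
    have : (l3 - l1) * (l3 ^ 2 + (l1 + 3) * l3 + (l1 ^ 2 + 3 * l1 - 15)) = 0 := by
      linear_combination h3' - h1'
    refine (mul_eq_zero.1 this).resolve_left ?_
    intro h
    linarith
  have e4 : l3 + l2 + l1 + 3 = 0 := by
    have : (l3 - l2) * (l3 + l2 + l1 + 3) = 0 := by linear_combination e3 - e2
    refine (mul_eq_zero.1 this).resolve_left ?_
    intro h
    linarith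
  refine ⟨l1, ⟨h1, fun t ht => ?_⟩, ⟨M, M_primitive, ⟨(l1 : ℂ), ?_, ?_⟩, ?_⟩, ?_⟩
  · by_contra hlt
    have hlt : l1 < t := not_le.1 hlt
    have ht : t ^ 3 + 3 * t ^ 2 - 15 * t - 46 = 0 := ht
    have : (t - l1) * (t ^ 2 + (l1 + 3) * t + (l1 ^ 2 + 3 * l1 - 15)) = 0 := by
      linear_combination ht - h1'
    rcases mul_eq_zero.1 this with h | h
    · linarith
    · nlinarith
  · rw [M_spec]
    have : (l1 : ℂ) ^ 3 + 3 * (l1 : ℂ) ^ 2 - 15 * (l1 : ℂ) - 46 = 0 := by exact_mod_cast h1'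
    rw [this, mul_zero]
  · rw [Complex.norm_real, Real.norm_eq_abs, abs_of_pos (by linarith)]
  · rintro x ⟨z, hz, rfl⟩
    rw [M_spec] at hz
    have c1 : (l1 : ℂ) ^ 3 + 3 * (l1 : ℂ) ^ 2 - 15 * (l1 : ℂ) - 46 = 0 := by exact_mod_cast h1'
    have c2 : (l2 : ℂ) ^ 2 + (l1 + 3) * l2 + ((l1 : ℂ) ^ 2 + 3 * l1 - 15) = 0 := by exact_mod_cast e2
    have c4 : (l3 : ℂ) + l2 + l1 + 3 = 0 := by exact_mod_cast e4
    have hfac : (z - 3) * ((z - l1) * ((z - l2) * (z - l3))) = 0 := by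
      have : (z - 3) * ((z - l1) * ((z - l2) * (z - l3))) =
          (z - 3) * (z ^ 3 + 3 * z ^ 2 - 15 * z - 46) := by
        have h5 : (l3 : ℂ) = -(l2 + l1 + 3) := by linear_combination c4
        rw [h5]
        linear_combination (z - 3) * (-c1 - (z - l1) * c2)
      rw [this, hz]
    rcases mul_eq_zero.1 hfac with h | h
    · rw [sub_eq_zero.1 h]
      norm_num
      linarith
    rcases mul_eq_zero.1 h with h | h
    · rw [sub_eq_zero.1 h, Complex.norm_real, Real.norm_eq_abs, abs_of_pos (by linarith)]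
    rcases mul_eq_zero.1 h with h | h
    · rw [sub_eq_zero.1 h, Complex.norm_real, Real.norm_eq_abs, abs_le]
      constructor <;> linarith
    · rw [sub_eq_zero.1 h, Complex.norm_real, Real.norm_eq_abs, abs_le]
      constructor <;> linarith
  · intro n hn
    by_contra hlt
    have hlt : n < 4 := not_le.1 hlt
    interval_cases n
    · exact not_zero l1 hn
    · exact not_one l1 h1 hn
    · exact not_two l1 h1 hn
    · exact not_three l1 h1 hn

end Pool.Agent.Results.MP_e10d7f_nt.DegPFFour
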